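import Pool.Agent.H933.RN.Stm

/-! P_restr (helper641 for helper933): restrictions of `q(T)` to hyperinvariant subspaces of a reductive operator. -/

set_option autoImplicit false

open MeasureTheory Metric Polynomial
open scoped Real InnerProductSpace NNReal

namespace Pool.Agent.H641.RN

open Pool.Agent.W402.HI Pool.Agent.W706.HIR Pool.Agent.H933.LL Pool.Agent.H933.RN
open Pool.Agent.K4H63.RC Pool.Agent.K4H63.RD

theorem p_restr : P_restr := by
  intro H _ _ _ T q hred V hV
  have hVc : CompleteSpace V := hV.1.completeSpace_coe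
  set A := aeval T q with hA
  have hcen : Cent T A := cent_aeval T q
  have hAV : ∀ x ∈ V, A x ∈ V := hcen.map hred hV
  have hAVo : ∀ x ∈ Vᗮ, A x ∈ Vᗮ := hcen.map hred (hyper_orth hred hV)
  have hAA : A.restrict hAV = aeval (T.restrict hV.inv) q := by
    ext x
    rw [aeval_restrict]
    rfl
  have hrr : ∀ z ∈ resolventSet ℂ A, z ∈ resolventSet ℂ (A.restrict hAV) ∧
      ‖resolvent (A.restrict hAV) z‖ ≤ ‖resolvent A z‖ := by
    intro z hz
    exact Pool.Agent.W610.HY.Reduct.res_restrict hAV (fun x _ => rfl) hAVo hz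
  have hTVs : spectrum ℂ (A.restrict hAV) ⊆ spectrum ℂ A := by
    intro z hz
    by_contra h
    have hz' : z ∈ resolventSet ℂ A := by
      by_contra h'
      exact h h'
    exact hz (hrr z hz').1
  rw [← hAA]
  refine ⟨hTVs, ?_⟩
  rintro z₀ ⟨p, r, hp, hr, h0, hI⟩
  refine ⟨p, r, hp, hr, measure_mono_null (Set.inter_subset_inter_left _ hTVs) h0, ?_⟩
  refine Integrable.mono' hI ?_ ?_
  · have hm : Measurable fun z : ℂ => ‖resolvent (A.restrict hAV) z‖ := measurable_resolvent_norm _
    have h1 : Measurable fun z : ℂ => Real.posLog (Real.posLog ‖resolvent (A.restrict hAV) z‖) :=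
      Real.continuous_posLog.measurable.comp (Real.continuous_posLog.measurable.comp hm)
    exact (h1.pow_const p).aestronglyMeasurable
  · have h2 : ∀ᵐ z : ℂ, z ∉ spectrum ℂ A ∩ ball z₀ r := measure_eq_zero_iff_ae_notMem.mp h0
    have h3 : ∀ᵐ z ∂(volume.restrict (ball z₀ r)), z ∉ spectrum ℂ A := by
      filter_upwards [ae_restrict_of_ae h2, ae_restrict_mem measurableSet_ball] with z hz hzb hs
      exact hz ⟨hs, hzb⟩
    filter_upwards [h3] with z hz
    have hz' : z ∈ resolventSet ℂ A := by
      by_contra h'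
      exact hz h'
    have h4 : 0 ≤ Real.posLog (Real.posLog ‖resolvent (A.restrict hAV) z‖) := Real.posLog_nonneg
    rw [Real.norm_eq_abs, abs_of_nonneg (Real.rpow_nonneg h4 p)]
    refine Real.rpow_le_rpow h4 ?_ (by linarith)
    exact Real.posLog_le_posLog Real.posLog_nonneg
      (Real.posLog_le_posLog (ContinuousLinearMap.opNorm_nonneg _) (hrr z hz').2)

end Pool.Agent.H641.RN
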